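import Pool.Agent.H42.HConc

open Cardinal Pool.Agent.H42.HConc Pool.Agent.H42.IMeag

/-- The Brown-Cox question has a negative answer under CH and a positive one under `ℵ₁ < b`. -/
theorem Pool.Agent.Results.MP_da5f1d_gt.Indep.result :
    ((𝔠 : Cardinal.{0}) = ℵ₁ → ∃ X : Set ℝ, HerConc X ∧ ¬ NuImage X) ∧
    (ℵ₁ < bN → ∀ X : Set ℝ, HerConc X → NuImage X) :=
  ⟨neg, pos⟩
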